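import Mathlib
import Pool.Agent.Lib.MP_f46d86_al.MainA
import Pool.Agent.Lib.MP_f46d86_al.MainB
import Pool.Agent.Lib.MP_f46d86_al.Degenerate
import Pool.Agent.Lib.MP_f46d86_al.Commutator

/-!
# Point stabilisers of projective piles over free profinite completions

Let `F` be a finitely generated free group and let `(F^, T)` be a projective pile, where `F^` is
the profinite completion of `F`.

1. If `1 ≠ g ∈ F` lies in a point stabiliser `F^_t` different from `F^`, then `g` lies in a
   non-trivial free factor of `F`.
2. If `F^_t = F^`, then all other points of `T` have trivial stabiliser.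
3. The exceptional situation of (2) does occur with `|T| > 1`, and then the literal question has a
   negative answer: for `F` free on `x, y` and `g = x y x⁻¹ y⁻¹`.
-/

set_option autoImplicit false

namespace Pool.Agent.Results.MP_f46d86_al.StabilizersInFreeFactors

open Pool.Agent.Lib.MP_f46d86_al ProfiniteGrp.ProfiniteCompletion

theorem result :
    -- the positive answer
    (∀ (α : Type) [Finite α] (T : Type) [TopologicalSpace T] [CompactSpace T] [T2Space T]
      [TotallyDisconnectedSpace T] [MulAction (completion (GrpCat.of (FreeGroup α))) T]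
      [ContinuousSMul (completion (GrpCat.of (FreeGroup α))) T],
      IsProjectivePile (completion (GrpCat.of (FreeGroup α))) T →
      ∀ (g : FreeGroup α) (t : T), g ≠ 1 →
        etaFn (GrpCat.of (FreeGroup α)) g ∈
          MulAction.stabilizer (completion (GrpCat.of (FreeGroup α))) t →
        MulAction.stabilizer (completion (GrpCat.of (FreeGroup α))) t ≠ ⊤ →
        ∃ A : Subgroup (FreeGroup α), IsFreeFactor A ∧ A ≠ ⊥ ∧ A ≠ ⊤ ∧ g ∈ A) ∧
    -- the excluded case forces all other stabilisers to be trivial
    (∀ (α : Type) [Finite α] (T : Type) [TopologicalSpace T] [CompactSpace T] [T2Space T]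
      [TotallyDisconnectedSpace T] [MulAction (completion (GrpCat.of (FreeGroup α))) T]
      [ContinuousSMul (completion (GrpCat.of (FreeGroup α))) T],
      IsProjectivePile (completion (GrpCat.of (FreeGroup α))) T →
      ∀ t : T, MulAction.stabilizer (completion (GrpCat.of (FreeGroup α))) t = ⊤ →
        ∀ t' : T, t' ≠ t →
          MulAction.stabilizer (completion (GrpCat.of (FreeGroup α))) t' = ⊥) ∧
    -- the excluded case occurs with more than one point
    (∃ (T : Type) (_ : TopologicalSpace T)
      (_ : MulAction (completion (GrpCat.of (FreeGroup (Fin 2)))) T),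
      CompactSpace T ∧ T2Space T ∧ TotallyDisconnectedSpace T ∧
      ContinuousSMul (completion (GrpCat.of (FreeGroup (Fin 2)))) T ∧
      IsProjectivePile (completion (GrpCat.of (FreeGroup (Fin 2)))) T ∧ Nontrivial T ∧
      ∃ (t : T) (g : FreeGroup (Fin 2)), g ≠ 1 ∧
        etaFn (GrpCat.of (FreeGroup (Fin 2))) g ∈
          MulAction.stabilizer (completion (GrpCat.of (FreeGroup (Fin 2)))) t ∧
        ¬ ∃ A : Subgroup (FreeGroup (Fin 2)), IsFreeFactor A ∧ A ≠ ⊤ ∧ g ∈ A) := by
  refine ⟨?_, ?_, ?_⟩
  · intro α _ T _ _ _ _ _ _ hproj g t hg1 hgt hne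
    obtain ⟨A, hA, hA1, hgA⟩ := mainA hproj g t hgt hne
    refine ⟨A, hA, ?_, hA1, hgA⟩
    rintro rfl
    exact hg1 (Subgroup.mem_bot.mp hgA)
  · intro α _ T _ _ _ _ _ _ hproj t ht t' htt
    exact mainB hproj t t' htt ht
  · refine ⟨OnePlus (Fin 2), inferInstance, inferInstance, inferInstance, inferInstance,
      inferInstance, inferInstance, onePlus_projective, ⟨Sum.inl (), Sum.inr 1, Sum.inl_ne_inr⟩,
      Sum.inl (), comm01, comm01_ne_one, ?_, commutator_not_inProperFreeFactor⟩
    rw [stabilizer_point]
    trivial

end Pool.Agent.Results.MP_f46d86_al.StabilizersInFreeFactors
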